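import Pool.Agent.V11249.GBaire

/-!
# Generalized Borel functions are the closure of the continuous functions under sequential limits

Let `κ` be regular with `2^{<κ} = κ`, and let `X`, `Y` be subspaces of `κ^κ` with the bounded
topology. Let `C` be the smallest class of functions from `X` to `Y` which contains the continuous
functions and is closed under limits of length `μ` for all regular `μ ≤ κ`.

Call a set `A` splitting if for all `f, g ∈ C` the function equal to `f` on `A` and to `g` off `A`
is in `C`. Clopen sets are splitting, complements of splitting sets are splitting, and the key fact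
is a gluing principle proved by transfinite induction: if `A_j`, `j < κ`, are splitting, the `φ_j`
and `g` are in `C`, and `F` equals `φ_j` on `A_j` for each `j` and `g` outside the union of the
`A_j`, then `F` is in `C` (at limit stages one uses a cofinal sequence of regular length). So unions
of `κ` splitting sets are splitting, hence all `κ⁺`-Borel sets are splitting, and functions that are
constant on the pieces of a partition into `κ` Borel sets are in `C`. Each Borel function is
a limit of length `κ` of such functions.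
-/

set_option autoImplicit false

open Cardinal Set Filter Topology V11249.GBaire

universe u

namespace Pool.Agent.Results.MP_f4bae3_lc.BorelSequentialLimits

/-- The `κ⁺`-Borel sets: the union of the classes `Σ⁰_ξ`, `1 ≤ ξ < κ⁺`. -/
def Bor (κ : Cardinal.{u}) {X : Type u} [TopologicalSpace X] (A : Set X) : Prop :=
  ∃ ξ : Ordinal.{u}, 1 ≤ ξ ∧ ξ < (Order.succ κ).ord ∧ Sig κ ξ A

/-- `κ⁺`-Borel measurable functions. -/
def BorMeas (κ : Cardinal.{u}) {X Y : Type u} [TopologicalSpace X] [TopologicalSpace Y]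
    (f : X → Y) : Prop := ∀ U : Set Y, IsOpen U → Bor κ (f ⁻¹' U)

/-- The smallest class of functions which contains the continuous functions and is closed under
pointwise limits of sequences of length `μ`, for all regular cardinals `μ ≤ κ`. -/
inductive SeqClass (κ : Cardinal.{u}) {X Y : Type u} [TopologicalSpace X] [TopologicalSpace Y] :
    (X → Y) → Prop
  | cont (f : X → Y) (hf : Continuous f) : SeqClass κ f
  | lim (μ : Cardinal.{u}) (hμ : μ.IsRegular) (hμκ : μ ≤ κ) (g : μ.ord.ToType → X → Y)
      (hg : ∀ i, SeqClass κ (g i)) (f : X → Y)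
      (hf : ∀ x, Tendsto (fun i => g i x) atTop (𝓝 (f x))) : SeqClass κ f

section

variable {κ : Cardinal.{u}} {X Y : Type u} [TopologicalSpace X] [TopologicalSpace Y]

lemma seq_of_lim {I : Type u} [LinearOrder I] [WellFoundedLT I] [Nonempty I] [NoMaxOrder I]
    (hI : #I ≤ κ) (g : I → X → Y) (hg : ∀ i, SeqClass κ (g i)) (f : X → Y)
    (hf : ∀ x, Tendsto (fun i => g i x) atTop (𝓝 (f x))) : SeqClass κ f := by
  obtain ⟨hreg, c, hc, hcc⟩ := cofSeq I
  refine SeqClass.lim (Order.cof I) hreg ((Order.cof_le_cardinalMk I).trans hI)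
    (fun i => g (c i)) (fun i => hg _) f fun x => ?_
  have := nonemptyPt hreg
  refine (hf x).comp (tendsto_atTop_atTop.2 fun b => ?_)
  obtain ⟨i, hi⟩ := hcc b
  exact ⟨i, fun a ha => hi.trans (hc.monotone ha)⟩

/-- splitting sets -/
def Spl (κ : Cardinal.{u}) (Y : Type u) [TopologicalSpace Y] (A : Set X) : Prop :=
  ∀ f g : X → Y, SeqClass κ f → SeqClass κ g → ∀ F : X → Y, (∀ x ∈ A, F x = f x) →
    (∀ x ∉ A, F x = g x) → SeqClass κ F

lemma spl_clopen {A : Set X} (hA : IsClopen A) : Spl κ Y A := by
  classical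
  have h1 : ∀ f g : X → Y, Continuous f → SeqClass κ g → SeqClass κ (A.piecewise f g) := by
    intro f g hf hg
    induction hg with
    | cont g hg =>
      refine SeqClass.cont _ (Continuous.piecewise ?_ hf hg)
      rw [hA.frontier_eq]
      exact fun a ha => absurd ha (notMem_empty a)
    | lim μ hμ hμκ gs hgs g hg ih =>
      refine SeqClass.lim μ hμ hμκ (fun i => A.piecewise f (gs i)) ih _ fun x => ?_
      by_cases hx : x ∈ A
      · simp only [piecewise_eq_of_mem _ _ _ hx]
        exact tendsto_const_nhds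
      · simp only [piecewise_eq_of_notMem _ _ _ hx]
        exact hg x
  have h2 : ∀ f g : X → Y, SeqClass κ f → SeqClass κ g → SeqClass κ (A.piecewise f g) := by
    intro f g hf hg
    induction hf with
    | cont f hf => exact h1 f g hf hg
    | lim μ hμ hμκ fs hfs f hf ih =>
      refine SeqClass.lim μ hμ hμκ (fun i => A.piecewise (fs i) g) ih _ fun x => ?_
      by_cases hx : x ∈ A
      · simp only [piecewise_eq_of_mem _ _ _ hx]
        exact hf x
      · simp only [piecewise_eq_of_notMem _ _ _ hx]
        exact tendsto_const_nhds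
  intro f g hf hg F hF1 hF2
  have : F = A.piecewise f g := by
    funext x
    by_cases hx : x ∈ A
    · rw [piecewise_eq_of_mem _ _ _ hx, hF1 x hx]
    · rw [piecewise_eq_of_notMem _ _ _ hx, hF2 x hx]
  rw [this]
  exact h2 f g hf hg

lemma spl_compl {A : Set X} (hA : Spl κ Y A) : Spl κ Y Aᶜ :=
  fun f g hf hg F h1 h2 => hA g f hg hf F (fun x hx => h2 x (fun h => h hx)) h1

/-- The gluing principle. -/
lemma glue (hκ : κ.IsRegular) (A : Pt κ → Set X) (hA : ∀ j, Spl κ Y (A j)) (φ : Pt κ → X → Y)
    (hφ : ∀ j, SeqClass κ (φ j)) (g : X → Y) (hg : SeqClass κ g) (F : X → Y)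
    (h1 : ∀ j, ∀ x ∈ A j, F x = φ j x) (h2 : ∀ x, (∀ j, x ∉ A j) → F x = g x) :
    SeqClass κ F := by
  classical
  have := nonemptyPt hκ
  have := noMax hκ
  let h : Pt κ → X → Y := fun a x => if ∃ j < a, x ∈ A j then F x else g x
  have key : ∀ a, SeqClass κ (h a) := by
    intro a
    induction a using WellFoundedLT.induction with
    | _ a ih =>
    rcases isEmpty_or_nonempty (Iio a) with he | hne
    · have : h a = g := by
        funext x
        have : ¬ ∃ j < a, x ∈ A j := by
          rintro ⟨j, hj, -⟩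
          exact he.elim ⟨j, hj⟩
        simp only [h, if_neg this]
      rw [this]
      exact hg
    by_cases hmax : ∃ b, b < a ∧ ∀ c < a, c ≤ b
    · obtain ⟨b, hb, hbm⟩ := hmax
      refine hA b (φ b) (h b) (hφ b) (ih b hb) _ (fun x hx => ?_) (fun x hx => ?_)
      · have : ∃ j < a, x ∈ A j := ⟨b, hb, hx⟩
        simp only [h, if_pos this]
        exact h1 b x hx
      · have : (∃ j < a, x ∈ A j) ↔ (∃ j < b, x ∈ A j) := by
          constructor
          · rintro ⟨j, hj, hxj⟩
            refine ⟨j, lt_of_le_of_ne (hbm j hj) ?_, hxj⟩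
            rintro rfl
            exact hx hxj
          · rintro ⟨j, hj, hxj⟩
            exact ⟨j, hj.trans hb, hxj⟩
        simp only [h, this]
    · push Not at hmax
      have hnm : NoMaxOrder (Iio a) := ⟨fun ⟨b, hb⟩ => by
        obtain ⟨c, hc, hbc⟩ := hmax b hb
        exact ⟨⟨c, hc⟩, hbc⟩⟩
      refine seq_of_lim (I := Iio a) (mkIio a).le (fun b => h b.1) (fun b => ih b.1 b.2) _
        fun x => ?_
      by_cases hx : ∃ j < a, x ∈ A j
      · obtain ⟨j, hj, hxj⟩ := hx
        refine tendsto_const_nhds.congr' ?_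
        obtain ⟨c, hc, hjc⟩ := hmax j hj
        filter_upwards [eventually_ge_atTop (⟨c, hc⟩ : Iio a)] with b hb
        have e1 : ∃ j < b.1, x ∈ A j := ⟨j, hjc.trans_le hb, hxj⟩
        have e2 : ∃ j < a, x ∈ A j := ⟨j, hj, hxj⟩
        simp only [h, if_pos e1, if_pos e2]
      · refine tendsto_const_nhds.congr' (Eventually.of_forall fun b => ?_)
        have e1 : ¬ ∃ j < b.1, x ∈ A j := fun ⟨j, hj, hxj⟩ => hx ⟨j, hj.trans b.2, hxj⟩
        simp only [h, if_neg e1, if_neg hx]
  refine seq_of_lim (I := Pt κ) mkPt.le h key _ fun x => ?_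
  by_cases hx : ∃ j, x ∈ A j
  · obtain ⟨j, hxj⟩ := hx
    refine tendsto_const_nhds.congr' ?_
    obtain ⟨c, hc⟩ := exGt hκ j
    filter_upwards [eventually_ge_atTop c] with b hb
    have e1 : ∃ j < b, x ∈ A j := ⟨j, hc.trans_le hb, hxj⟩
    simp only [h, if_pos e1]
  · push Not at hx
    refine tendsto_const_nhds.congr' (Eventually.of_forall fun b => ?_)
    have e1 : ¬ ∃ j < b, x ∈ A j := fun ⟨j, hj, hxj⟩ => hx j hxj
    simp only [h, if_neg e1]
    exact h2 x hx

lemma spl_iUnion (hκ : κ.IsRegular) (A : Pt κ → Set X) (hA : ∀ j, Spl κ Y (A j)) :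
    Spl κ Y (⋃ j, A j) := by
  intro f g hf hg F h1 h2
  refine glue hκ A hA (fun _ => f) (fun _ => hf) g hg F (fun j x hx => ?_) (fun x hx => ?_)
  · exact h1 x (mem_iUnion.2 ⟨j, hx⟩)
  · exact h2 x (fun h => by
      obtain ⟨j, hj⟩ := mem_iUnion.1 h
      exact hx j hj)

lemma spl_of_sig (hX : Good κ X) (hκ : κ.IsRegular) {ξ : Ordinal.{u}} {A : Set X}
    (hA : Sig κ ξ A) : Spl κ Y A := by
  classical
  induction hA with
  | opens U hU =>
    obtain ⟨⟨V, hV, hb⟩, -⟩ := hX
    have h1 : U = ⋃ t : Pt κ, (if V t ⊆ U then V t else ∅) := by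
      ext x
      simp only [mem_iUnion]
      constructor
      · intro hx
        obtain ⟨t, ht, htU⟩ := hb U hU x hx
        exact ⟨t, by rwa [if_pos htU]⟩
      · rintro ⟨t, ht⟩
        split_ifs at ht with h
        · exact h ht
        · exact absurd ht (notMem_empty _)
    rw [h1]
    refine spl_iUnion hκ _ fun t => spl_clopen ?_
    split_ifs
    · exact hV t
    · exact isClopen_empty
  | union ξ hξ A η h1 h2 h ih =>
    refine spl_iUnion hκ _ fun j => ?_
    have := spl_compl (ih j)
    rwa [compl_compl] at this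

lemma spl_of_bor (hX : Good κ X) (hκ : κ.IsRegular) {A : Set X}
    (hA : Bor κ A) : Spl κ Y A := by
  obtain ⟨ξ, -, -, h⟩ := hA
  exact spl_of_sig hX hκ h

lemma bor_compl (hκ : κ.IsRegular) {A : Set X} (hA : Bor κ A) : Bor κ Aᶜ := by
  obtain ⟨ξ, h1, h2, h3⟩ := hA
  refine ⟨ξ + 1, h1.trans (Order.lt_add_one_iff.2 le_rfl).le, ?_, sig_compl_succ hκ h3⟩
  exact (isSuccLimit_ord (hκ.aleph0_le.trans (Order.le_succ κ))).add_one_lt h2

lemma bor_iUnion (hκ : κ.IsRegular) {ι : Type u} (hι : #ι ≤ κ) (A : ι → Set X)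
    (hA : ∀ i, Bor κ (A i)) : Bor κ (⋃ i, A i) := by
  have hsucc := isRegular_succ hκ.aleph0_le
  choose ξ h1 h2 h3 using hA
  have hb : (⨆ i, (ξ i + 1)) < (Order.succ κ).ord := by
    refine Ordinal.iSup_lt_of_lt_cof ?_ fun i => ?_
    · rw [hsucc.cof_ord]
      exact Order.lt_succ_iff.2 hι
    · exact (isSuccLimit_ord hsucc.aleph0_le).add_one_lt (h2 i)
  have hlim := isSuccLimit_ord hsucc.aleph0_le
  refine ⟨(⨆ i, (ξ i + 1)) + 1 + 1, ?_, hlim.add_one_lt (hlim.add_one_lt hb), ?_⟩
  · exact le_add_self
  · refine sig_union_of ?_ hι A fun i => ⟨ξ i + 1, ?_, sig_compl_succ hκ (h3 i)⟩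
    · exact Order.lt_add_one_iff.2 le_add_self
    · refine Order.lt_add_one_iff.2 (le_trans ?_ (Order.lt_add_one_iff.2 le_rfl).le)
      exact Ordinal.le_iSup _ i

lemma bor_iInter (hκ : κ.IsRegular) {ι : Type u} (hι : #ι ≤ κ) (A : ι → Set X)
    (hA : ∀ i, Bor κ (A i)) : Bor κ (⋂ i, A i) := by
  have h1 := bor_compl hκ (bor_iUnion hκ hι _ fun i => bor_compl hκ (hA i))
  rwa [compl_iUnion, iInter_congr fun i => compl_compl (A i)] at h1

lemma bor_open (hκ : κ.IsRegular) {U : Set X} (hU : IsOpen U) : Bor κ U := by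
  refine ⟨1, le_rfl, ?_, Sig.opens U hU⟩
  have hlim := isSuccLimit_ord (isRegular_succ hκ.aleph0_le).aleph0_le
  have h0 : (0 : Ordinal.{u}) < (Order.succ κ).ord := (isRegular_succ hκ.aleph0_le).ord_pos
  simpa using hlim.add_one_lt h0

lemma borMeas_of_seq (hY : Good κ Y) (hκ : κ.IsRegular) {f : X → Y} (hf : SeqClass κ f) :
    BorMeas κ f := by
  classical
  induction hf with
  | cont f hf => exact fun U hU => bor_open hκ (hU.preimage hf)
  | lim μ hμ hμκ g hg f hf ih =>
    have hcl : ∀ V : Set Y, IsClopen V → Bor κ (f ⁻¹' V) := by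
      intro V hV
      have := nonemptyPt hμ
      have h1 : f ⁻¹' V = ⋃ i : Pt μ, ⋂ j : Pt μ, (if i ≤ j then g j ⁻¹' V else univ) := by
        ext x
        simp only [mem_preimage, mem_iUnion, mem_iInter]
        constructor
        · intro hx
          have h2 := (hf x).eventually (hV.isOpen.mem_nhds hx)
          obtain ⟨i, hi⟩ := eventually_atTop.1 h2
          refine ⟨i, fun j => ?_⟩
          split_ifs with h
          · exact hi j h
          · exact mem_univ _
        · rintro ⟨i, hi⟩
          refine hV.isClosed.mem_of_tendsto (hf x) ?_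
          filter_upwards [eventually_ge_atTop i] with j hj
          have := hi j
          rw [if_pos hj] at this
          exact this
      rw [h1]
      refine bor_iUnion hκ (by rw [mkPt]; exact hμκ) _ fun i => ?_
      refine bor_iInter hκ (by rw [mkPt]; exact hμκ) _ fun j => ?_
      split_ifs
      · exact ih j V hV.isOpen
      · exact bor_open hκ isOpen_univ
    intro U hU
    obtain ⟨⟨V, hV, hb⟩, -⟩ := hY
    have h1 : U = ⋃ t : Pt κ, (if V t ⊆ U then V t else ∅) := by
      ext x
      simp only [mem_iUnion]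
      constructor
      · intro hx
        obtain ⟨t, ht, htU⟩ := hb U hU x hx
        exact ⟨t, by rwa [if_pos htU]⟩
      · rintro ⟨t, ht⟩
        split_ifs at ht with h
        · exact h ht
        · exact absurd ht (notMem_empty _)
    rw [h1, preimage_iUnion]
    refine bor_iUnion hκ mkPt.le _ fun t => ?_
    split_ifs
    · exact hcl _ (hV t)
    · rw [preimage_empty]
      exact bor_open hκ isOpen_empty

end

/-- For a regular cardinal `κ` with `2^{<κ} = κ` and all subspaces `X`, `Y` of the generalized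
Baire space, the `κ⁺`-Borel measurable functions from `X` to `Y` are exactly the functions in the
smallest class that contains the continuous functions and is closed under `μ`-limits for every
regular `μ ≤ κ`. -/
theorem result (κ : Cardinal.{u}) (hκ : κ.IsRegular) (hpow : Cardinal.powerlt 2 κ = κ)
    (X Y : Set (GB κ)) (f : X → Y) : BorMeas κ f ↔ SeqClass κ f := by
  classical
  refine ⟨fun hf => ?_, borMeas_of_seq (good hκ hpow Y) hκ⟩
  have hX := good hκ hpow X
  rcases isEmpty_or_nonempty X with hX0 | ⟨⟨x0⟩⟩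
  · exact SeqClass.cont f (continuous_of_const fun x => hX0.elim x)
  -- representatives
  have := nonemptyPt hκ
  have hrep : ∀ a : Pt κ, ∃ r : Y → Y, (∀ y, (r y).1 ∈ nb y.1 a) ∧
      ∀ y y' : Y, y'.1 ∈ nb y.1 a → r y' = r y := by
    intro a
    let s : Setoid Y := ⟨fun y y' => nb y.1 a = nb y'.1 a, fun _ => rfl, fun h => h.symm,
      fun h h' => h.trans h'⟩
    refine ⟨fun y => (Quotient.mk s y).out, fun y => ?_, fun y y' h => ?_⟩
    · have h1 : nb (Quotient.mk s y).out.1 a = nb y.1 a := Quotient.mk_out (s := s) y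
      rw [← h1]
      exact self_mem_nb _ _
    · have : Quotient.mk s y' = Quotient.mk s y := Quotient.sound (nb_eq h)
      simp only [this]
  choose r hr1 hr2 using hrep
  have hlim : ∀ x, Tendsto (fun a => r a (f x)) atTop (𝓝 (f x)) := by
    intro x
    rw [tendsto_subtype_rng, tendsto_nhds]
    intro U hU hxU
    obtain ⟨a, ha⟩ := (isOpen_iff hκ U).1 hU _ hxU
    filter_upwards [eventually_ge_atTop a] with b hb
    exact ha (nb_anti _ hb (hr1 b (f x)))
  have hnm := noMax hκ
  refine seq_of_lim (I := Pt κ) mkPt.le (fun a x => r a (f x)) (fun a => ?_) f hlim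
  obtain ⟨e, he⟩ := basicEnum (κ := κ) hκ hpow
  have hcst : ∀ y : Y, SeqClass κ (fun _ : X => y) := fun y => SeqClass.cont _ continuous_const
  let φ : Pt κ → X → Y := fun t _ =>
    if h : ∃ y : Y, y.1 ∈ nb (e t).1 a then r a h.choose else f x0
  refine glue hκ (fun t => if (e t).2 = a then f ⁻¹' (Subtype.val ⁻¹' (nb (e t).1 (e t).2)) else ∅)
    (fun t => ?_) φ (fun t => hcst _) (fun _ => f x0) (hcst _) _ (fun t x hx => ?_)
    (fun x hx => ?_)
  · show Spl κ Y (if (e t).2 = a then f ⁻¹' (Subtype.val ⁻¹' (nb (e t).1 (e t).2)) else ∅)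
    split_ifs
    · exact spl_of_bor hX hκ (hf _ ((isOpen_nb _ _).preimage continuous_subtype_val))
    · exact spl_clopen isClopen_empty
  · split_ifs at hx with h
    · rw [h] at hx
      have hex : ∃ y : Y, y.1 ∈ nb (e t).1 a := ⟨f x, hx⟩
      simp only [φ, dif_pos hex]
      apply hr2
      rw [nb_eq hex.choose_spec]
      exact hx
    · exact absurd hx (notMem_empty _)
  · exfalso
    obtain ⟨t, ht, ht2⟩ := he (f x).1 a
    apply hx t
    rw [if_pos ht]
    show (f x).1 ∈ nb (e t).1 (e t).2
    rw [ht, ht2]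
    exact self_mem_nb _ _

end Pool.Agent.Results.MP_f4bae3_lc.BorelSequentialLimits
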