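import Pool.Agent.V11249.GBaireLim

/-!
# Limits of length `κ` of the special limits do not give all of `M_{ξ+1}`

Let `κ` be regular with `2^{<κ} = κ` and let `ξ < κ⁺` be a limit ordinal of cofinality `μ < κ`. Every
special limit of functions in `M_{<ξ}` is in `M_ξ`. Let `V` be clopen, let `f_α`, `α < κ`, be
functions in `M_ξ` with limit `f`, and let `A` be the preimage of `V` under `f`. The complement of
the preimage of `V` under `f_α` is a union of sets `T_{α,n}`, `n < μ`, where `T_{α,n}` is in the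
class `Σ⁰_{ξ_n}` for a fixed cofinal sequence `(ξ_n)` in `ξ`. As `μ < κ`, the complement of `A` is
the union over `n < μ` of the sets of all `x` which are in `T_{α,n}` for unboundedly many `α`, so
it is in `Σ⁰_ξ`. Since the classes `Σ⁰_ξ` are not closed under complements on `κ^κ`, the
characteristic function of a `Σ⁰_ξ` set is in `M_{ξ+1}` but not always a limit of the `f_α`.
-/

set_option autoImplicit false

open Cardinal Set Filter Topology V11249.GBaire

universe u

namespace Pool.Agent.Results.MP_f4bae3_lc.EqualityFails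

variable {κ : Cardinal.{u}}

lemma sig_inter {X : Type u} [TopologicalSpace X] (hX : Good κ X)
    (hκ : κ.IsRegular) {ξ : Ordinal.{u}} (hξ : 1 < ξ) {Z W : Set X} (hZ : Sig κ ξ Z)
    (hW : Sig κ ξ W) : Sig κ ξ (Z ∩ W) := by
  obtain ⟨A, η, h1, h2, h3, rfl⟩ := hZ.exists_union hξ
  obtain ⟨B, η', h1', h2', h3', rfl⟩ := hW.exists_union hξ
  have h4 : (⋃ i, A i) ∩ (⋃ i, B i) = ⋃ p : Pt κ × Pt κ, (A p.1 ∩ B p.2) := by
    ext x
    simp only [mem_inter_iff, mem_iUnion, Prod.exists]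
    constructor
    · rintro ⟨⟨i, hi⟩, ⟨j, hj⟩⟩
      exact ⟨i, j, hi, hj⟩
    · rintro ⟨i, j, hi, hj⟩
      exact ⟨⟨i, hi⟩, ⟨j, hj⟩⟩
  rw [h4]
  refine sig_union_of hξ ?_ _ fun p => ⟨max (η p.1) (η' p.2), max_lt (h2 _) (h2' _), ?_⟩
  · rw [mk_prod, lift_id, mkPt]
    exact (mul_eq_self hκ.aleph0_le).le
  · rw [compl_inter]
    exact sig_union2 hκ (sig_mono hX (le_max_left _ _) (h3 _))
      (sig_mono hX (le_max_right _ _) (h3' _))

lemma hat_sub {X Y : Type u} [TopologicalSpace X] [TopologicalSpace Y] (hX : Good κ X)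
    (hκ : κ.IsRegular) {ξ : Ordinal.{u}}
    (hξ : Order.IsSuccLimit ξ) {μ : Cardinal.{u}} (hμκ : μ < κ) (f : X → Y)
    (hf : f ∈ HatLim κ ξ μ (MLt κ ξ X Y)) : f ∈ MClass κ ξ X Y := by
  obtain ⟨g, Z, hg, hZ, -, hun, hfg⟩ := hf
  intro U hU
  have h1 : f ⁻¹' U = ⋃ i, (Z i ∩ g i ⁻¹' U) := by
    ext x
    simp only [mem_preimage, mem_iUnion, mem_inter_iff]
    constructor
    · intro hx
      have hx2 : x ∈ ⋃ i, Z i := by rw [hun]; exact mem_univ x
      obtain ⟨i, hi⟩ := mem_iUnion.1 hx2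
      exact ⟨i, hi, by rwa [hfg i i le_rfl x hi]⟩
    · rintro ⟨i, hi, hx⟩
      rwa [hfg i i le_rfl x hi] at hx
  rw [h1]
  have hξ1 : 1 < ξ := by
    have := hξ.add_one_lt hξ.bot_lt
    simpa using this
  refine sig_iUnion hκ hξ1.le (by rw [mk_toType, card_ord]; exact hμκ.le) _ fun i => ?_
  obtain ⟨η, -, hη, hgη⟩ := hg i
  exact sig_inter hX hκ hξ1 (hZ i) (sig_mono hX hη.le (hgη U hU))

/-- If `f` is a limit of length `κ` of functions in `M_ξ`, then preimages of clopen sets under `f`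
are in `Σ⁰_ξ`, for limit ordinals `ξ` of cofinality below `κ`. -/
lemma lim_sig {X Y : Type u} [TopologicalSpace X] [TopologicalSpace Y] (hX : Good κ X)
    (hκ : κ.IsRegular) {ξ : Ordinal.{u}} (hξ : Order.IsSuccLimit ξ) (hcof : ξ.cof < κ)
    (f : X → Y) (g : Pt κ → X → Y) (hg : ∀ α, g α ∈ MClass κ ξ X Y)
    (hlim : ∀ x, Tendsto (fun α => g α x) atTop (𝓝 (f x))) (V : Set Y) (hV : IsClopen V) :
    Sig κ ξ (f ⁻¹' V) := by
  have hξ1 : 1 < ξ := by
    have := hξ.add_one_lt hξ.bot_lt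
    simpa using this
  obtain ⟨-, c, hc, hc1, hc2, hc3⟩ := cofOrd hξ
  have := nonemptyPt hκ
  -- the pieces
  have hT : ∀ α, ∃ T : Pt ξ.cof → Set X, (∀ n, Sig κ (c n + 1) (T n)) ∧ g α ⁻¹' V = ⋃ n, T n := by
    intro α
    obtain ⟨A, η, h1, h2, h3, h4⟩ := (hg α V hV.isOpen).exists_union hξ1
    refine ⟨fun n => ⋃ i, (if η i ≤ c n then A i else ∅), fun n => ?_, ?_⟩
    · refine sig_union_of (Order.lt_add_one_iff.2 (hc2 n)) mkPt.le _ fun i => ?_
      split_ifs with h
      · exact ⟨η i, Order.lt_add_one_iff.2 h, h3 i⟩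
      · refine ⟨1, Order.lt_add_one_iff.2 (hc2 n), ?_⟩
        rw [compl_empty]
        exact Sig.opens _ isOpen_univ
    · rw [h4]
      ext x
      simp only [mem_iUnion]
      constructor
      · rintro ⟨i, hi⟩
        obtain ⟨n, hn⟩ := hc3 (η i) (h2 i)
        exact ⟨n, i, by rwa [if_pos hn]⟩
      · rintro ⟨n, i, hi⟩
        split_ifs at hi with h
        · exact ⟨i, hi⟩
        · exact absurd hi (notMem_empty _)
  choose T hT1 hT2 using hT
  have key : f ⁻¹' V = ⋃ n, ⋂ β : Pt κ, ⋃ α : Pt κ, (if β ≤ α then T α n else ∅) := by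
    ext x
    simp only [mem_preimage, mem_iUnion, mem_iInter]
    constructor
    · intro hx
      obtain ⟨α0, hα0⟩ := eventually_atTop.1 ((hlim x).eventually (hV.isOpen.mem_nhds hx))
      by_contra hcon
      push Not at hcon
      choose β hβ using hcon
      obtain ⟨b, hb⟩ := bdd' hκ (ι := Pt ξ.cof) (by rw [mkPt]; exact hcof) β
      have h1 : g (max α0 b) x ∈ V := hα0 _ (le_max_left _ _)
      have h2 : x ∈ ⋃ n, T (max α0 b) n := by
        rw [← hT2]
        exact h1
      obtain ⟨n, hn⟩ := mem_iUnion.1 h2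
      apply hβ n (max α0 b)
      rw [if_pos ((hb n).le.trans (le_max_right _ _))]
      exact hn
    · rintro ⟨n, hn⟩
      by_contra hx
      have h1 := (hlim x).eventually (hV.compl.isOpen.mem_nhds hx)
      obtain ⟨α0, hα0⟩ := eventually_atTop.1 h1
      obtain ⟨α, hα⟩ := hn α0
      split_ifs at hα with h
      · have h2 : x ∈ g α ⁻¹' V := by
          rw [hT2]
          exact mem_iUnion.2 ⟨n, hα⟩
        exact hα0 α h h2
      · exact absurd hα (notMem_empty _)
  rw [key]
  refine sig_union_of hξ1 (by rw [mkPt]; exact hcof.le) _ fun n =>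
    ⟨c n + 1 + 1, hξ.add_one_lt (hξ.add_one_lt (hc1 n)), ?_⟩
  rw [compl_iInter]
  have h1 : (1 : Ordinal.{u}) ≤ c n + 1 := le_add_self
  refine sig_iUnion hκ le_add_self mkPt.le _ fun β => sig_compl_succ hκ ?_
  refine sig_iUnion hκ h1 mkPt.le _ fun α => ?_
  split_ifs
  · exact hT1 α n
  · exact sig_open hX h1 isOpen_empty

/-- The equality `M_{ξ+1}(X, Y) = lim_κ(lim^_{cf(ξ)} M_{<ξ}(X, Y))` fails for `X = Y = κ^κ`, for all
limit ordinals `ξ < κ⁺` of cofinality below `κ`. -/
theorem result (κ : Cardinal.{u}) (hκ : κ.IsRegular)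
    (hpow : Cardinal.powerlt 2 κ = κ) (ξ : Ordinal.{u}) (hξ : Order.IsSuccLimit ξ)
    (hξκ : ξ < (Order.succ κ).ord) (hcof : ξ.cof < κ) :
    MClass κ (ξ + 1) (GB κ) (GB κ) ≠ LimSet κ (HatLim κ ξ ξ.cof (MLt κ ξ (GB κ) (GB κ))) := by
  classical
  have hX := goodGB hκ hpow
  have hξ1 : 1 < ξ := by
    have := hξ.add_one_lt hξ.bot_lt
    simpa using this
  obtain ⟨A, hA, hA'⟩ := noCollapse hκ hpow ξ hξ1.le hξκ
  intro heq
  -- two different points
  have := nonemptyPt hκ
  obtain ⟨a⟩ := nonemptyPt hκ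
  obtain ⟨b, hb⟩ := exGt hκ a
  let y0 : GB κ := fun _ => a
  let y1 : GB κ := fun _ => b
  have hV : IsClopen (nb y1 b) := isClopen_nb hκ y1 b
  have hy0 : y0 ∉ nb y1 b := fun h => hb.ne (h a hb)
  let f : GB κ → GB κ := fun x => if x ∈ A then y1 else y0
  have hf : f ∈ MClass κ (ξ + 1) (GB κ) (GB κ) := by
    intro U _
    have hDA := del_of_sig hX hκ hA
    have h1 : (1 : Ordinal.{u}) ≤ ξ + 1 := le_add_self
    by_cases h0 : y0 ∈ U <;> by_cases h1' : y1 ∈ U
    · have : f ⁻¹' U = Set.univ := by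
        ext x
        simp only [mem_preimage, f, mem_univ, iff_true]
        split_ifs <;> assumption
      rw [this]
      exact sig_open hX h1 isOpen_univ
    · have : f ⁻¹' U = Aᶜ := by
        ext x
        simp only [mem_preimage, f, mem_compl_iff]
        split_ifs with h <;> tauto
      rw [this]
      exact hDA.2
    · have : f ⁻¹' U = A := by
        ext x
        simp only [mem_preimage, f]
        split_ifs with h <;> tauto
      rw [this]
      exact hDA.1
    · have : f ⁻¹' U = ∅ := by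
        ext x
        simp only [mem_preimage, f, mem_empty_iff_false, iff_false]
        split_ifs <;> assumption
      rw [this]
      exact sig_open hX h1 isOpen_empty
  rw [heq] at hf
  obtain ⟨g, hg, hlim⟩ := hf
  have h2 := lim_sig hX hκ hξ hcof f g (fun α => hat_sub hX hκ hξ hcof (g α) (hg α)) hlim _
    hV.compl
  have h3 : f ⁻¹' (nb y1 b)ᶜ = Aᶜ := by
    ext x
    simp only [mem_preimage, f, mem_compl_iff]
    split_ifs with h
    · simp [h, self_mem_nb]
    · simp [h, hy0]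
  rw [h3] at h2
  exact hA' h2

end Pool.Agent.Results.MP_f4bae3_lc.EqualityFails
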