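import Pool.Agent.V11249.GBaireLim

/-!
# Functions in `M_{ξ+1}` are limits of length `κ` of limits of length `cf(ξ)`

Let `κ` be regular uncountable with `2^{<κ} = κ` and let `ξ < κ⁺` be a limit ordinal of cofinality
`μ < κ`. We show that every function in `M_{ξ+1}(X, Y)` is a limit of length `κ` of limits of
length `μ` of functions in `M_{<ξ}(X, Y)`.

To a set `S` in `Σ⁰_η` we assign clopen sets `P_γ` and sets `C_γ` in `Δ⁰_{η+1}`, `γ < κ`, such that
`P_γ` and `S` agree on `C_γ` and for each `x` the set of all `γ` with `x ∈ C_γ` is closed unbounded.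
Doing this for all the sets of rank below `ξ` which are used to write the preimages
`f⁻¹(V_t)` of the basic sets as unions of intersections of length `μ`, we get continuous functions
`G_γ` and for each `x` a closed unbounded set `C(x)` which is the intersection of a decreasing
sequence of closed sets `C^k(x)`, `k < μ`, such that `G_γ(x)` tends to `f(x)` for `γ → κ` in `C(x)`.
For a fixed `α < κ` the last element `m_k(x)` of `C^k(x)` which is at most `α` decreases with `k`,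
so it is eventually constant, with the last element of `C(x)` up to `α` as its final value.
So `x ↦ G_{m_k(x)}(x)` is a sequence of length `μ` that converges everywhere.
-/

set_option autoImplicit false

open Cardinal Set Filter Topology V11249.GBaire

universe u

namespace Pool.Agent.Results.MP_f4bae3_lc.WeakInclusion

variable {κ : Cardinal.{u}}

/-- closed under suprema of nonempty sets -/
def LubClosed (S : Set (Pt κ)) : Prop := ∀ T ⊆ S, T.Nonempty → ∀ s, IsLUB T s → s ∈ S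

lemma exists_greatest {S : Set (Pt κ)} (hS : LubClosed S) (α : Pt κ) (hne : ∃ γ ≤ α, γ ∈ S) :
    ∃ m, IsGreatest {γ | γ ≤ α ∧ γ ∈ S} m := by
  have hub : (upperBounds {γ | γ ≤ α ∧ γ ∈ S}).Nonempty := ⟨α, fun γ hγ => hγ.1⟩
  obtain ⟨s, hs, hmin⟩ := (wellFounded_lt (α := Pt κ)).has_min _ hub
  have hlub : IsLUB {γ | γ ≤ α ∧ γ ∈ S} s := ⟨hs, fun b hb => not_lt.1 (hmin b hb)⟩
  obtain ⟨γ, hγ, hγS⟩ := hne
  exact ⟨s, ⟨not_lt.1 (hmin α (fun γ hγ => hγ.1)),
    hS {γ | γ ≤ α ∧ γ ∈ S} (fun γ hγ => hγ.2) ⟨γ, hγ, hγS⟩ s hlub⟩, hs⟩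

/-- closure points of a function are unbounded -/
lemma club (hκ : κ.IsRegular) (hunc : ℵ₀ < κ) (h : Pt κ → Pt κ) (β : Pt κ) :
    ∃ γ, β < γ ∧ ∀ δ < γ, h δ < γ := by
  have h1 : ∀ β, ∃ b, β < b ∧ ∀ δ ≤ β, h δ < b := by
    intro β
    obtain ⟨b, hb⟩ := bdd' hκ (mkIic hκ β) (fun δ => h δ.1)
    obtain ⟨c, hc⟩ := exGt hκ β
    exact ⟨max b c, hc.trans_le (le_max_right _ _), fun δ hδ => (hb ⟨δ, hδ⟩).trans_le (le_max_left _ _)⟩
  choose g hg1 hg2 using h1
  let s : ℕ → Pt κ := fun n => g^[n] β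
  have hs : ∀ n, s (n + 1) = g (s n) := fun n => Function.iterate_succ_apply' g n β
  have hub : {b | ∀ n, s n ≤ b}.Nonempty := by
    obtain ⟨b, hb⟩ := bdd' hκ (ι := ULift ℕ) (by simpa using hunc) (fun n => s n.down)
    exact ⟨b, fun n => (hb ⟨n⟩).le⟩
  obtain ⟨γ, hγ, hmin⟩ := (wellFounded_lt (α := Pt κ)).has_min _ hub
  refine ⟨γ, ?_, fun δ hδ => ?_⟩
  · have h2 : β < s 1 := hg1 β
    exact h2.trans_le (hγ 1)
  · have h2 : ¬ ∀ n, s n ≤ δ := fun h => hmin δ h hδ
    push Not at h2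
    obtain ⟨n, hn⟩ := h2
    have h3 : h δ < s (n + 1) := by
      rw [hs]
      exact hg2 _ _ hn.le
    exact h3.trans_le (hγ _)

section refl

variable {X : Type u} [TopologicalSpace X]

/-- reflection -/
def Refl (κ : Cardinal.{u}) (ξ : Ordinal.{u}) (S : Set X) (P C : Pt κ → Set X) : Prop :=
  (∀ γ, IsClopen (P γ)) ∧ (∀ γ, ∀ x ∈ C γ, (x ∈ P γ ↔ x ∈ S)) ∧
    (∀ x, LubClosed {γ | x ∈ C γ}) ∧
    (∀ x, ∃ h : Pt κ → Pt κ, ∀ γ, (∃ β, β < γ) → (∀ β < γ, h β < γ) → x ∈ C γ) ∧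
    ∀ γ, Del κ (ξ + 1) (C γ)

lemma refl (hX : Good κ X) (hκ : κ.IsRegular) (hpow : Cardinal.powerlt 2 κ = κ)
    {ξ : Ordinal.{u}} {S : Set X} (hS : Sig κ ξ S) : ∃ P C : Pt κ → Set X, Refl κ ξ S P C := by
  classical
  induction hS with
  | opens U hU =>
    obtain ⟨V, hV, hb⟩ := hX.basis
    let R : Pt κ → Set X := fun t => if V t ⊆ U then V t else ∅
    have hR : ∀ t, IsClopen (R t) := by
      intro t
      show IsClopen (if V t ⊆ U then V t else ∅)
      split_ifs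
      · exact hV t
      · exact isClopen_empty
    have hRU : ∀ t, R t ⊆ U := by
      intro t x hx
      change x ∈ (if V t ⊆ U then V t else ∅) at hx
      split_ifs at hx with h
      · exact h hx
      · exact absurd hx (notMem_empty _)
    have hUR : ∀ x ∈ U, ∃ t, x ∈ R t := by
      intro x hx
      obtain ⟨t, ht, htU⟩ := hb U hU x hx
      refine ⟨t, ?_⟩
      show x ∈ (if V t ⊆ U then V t else ∅)
      rwa [if_pos htU]
    refine ⟨fun γ => ⋃ j : Iio γ, R j.1, fun γ => Uᶜ ∪ ⋃ j : Iio γ, R j.1,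
      fun γ => isClopen_iUnion hX (mkIio γ) _ fun j => hR j.1, ?_, ?_, ?_, ?_⟩
    · intro γ x hx
      constructor
      · intro h
        obtain ⟨j, hj⟩ := mem_iUnion.1 h
        exact hRU _ hj
      · intro h
        rcases hx with hx | hx
        · exact absurd h hx
        · exact hx
    · intro x T hT hne s hs
      obtain ⟨τ, hτ⟩ := hne
      rcases hT hτ with h | h
      · exact Or.inl h
      · obtain ⟨j, hj⟩ := mem_iUnion.1 h
        exact Or.inr (mem_iUnion.2 ⟨⟨j.1, j.2.trans_le (hs.1 hτ)⟩, hj⟩)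
    · intro x
      by_cases hx : x ∈ U
      · obtain ⟨j0, hj0⟩ := hUR x hx
        refine ⟨fun _ => j0, fun γ ⟨β, hβ⟩ h => Or.inr (mem_iUnion.2 ⟨⟨j0, h β hβ⟩, hj0⟩)⟩
      · exact ⟨id, fun γ _ _ => Or.inl hx⟩
    · intro γ
      exact del_union hX hκ hpow le_rfl (del_of_sig hX hκ (Sig.opens U hU)).compl
        (del_of_isClopen hX le_add_self (isClopen_iUnion hX (mkIio γ) _ fun j => hR j.1))
  | union ξ hξ A η h1 h2 h ih =>
    choose Q C hQC using ih
    have hSig : Sig κ ξ (⋃ i, A i) := Sig.union ξ hξ A η h1 h2 h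
    refine ⟨fun γ => ⋃ j : Iio γ, (Q j.1 γ)ᶜ,
      fun γ => (⋂ j : Iio γ, C j.1 γ) ∩ ((⋃ i, A i)ᶜ ∪ ⋃ j : Iio γ, A j.1),
      fun γ => isClopen_iUnion hX (mkIio γ) _ fun j => ((hQC j.1).1 γ).compl, ?_, ?_, ?_, ?_⟩
    · rintro γ x ⟨hx1, hx2⟩
      have hx3 : ∀ j < γ, (x ∈ (Q j γ)ᶜ ↔ x ∈ A j) := by
        intro j hj
        have h3 := (hQC j).2.1 γ x (mem_iInter.1 hx1 ⟨j, hj⟩)
        rw [mem_compl_iff, h3, mem_compl_iff, not_not]
      constructor
      · intro h
        obtain ⟨j, hj⟩ := mem_iUnion.1 h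
        exact mem_iUnion.2 ⟨j.1, (hx3 j.1 j.2).1 hj⟩
      · intro h
        rcases hx2 with hx2 | hx2
        · exact absurd h hx2
        · obtain ⟨j, hj⟩ := mem_iUnion.1 hx2
          exact mem_iUnion.2 ⟨j, (hx3 j.1 j.2).2 hj⟩
    · intro x T hT hne s hs
      constructor
      · refine mem_iInter.2 fun j => ?_
        have h3 : ∃ τ ∈ T, j.1 < τ := by
          by_contra hcon
          push Not at hcon
          exact absurd (hs.2 hcon) (not_le.2 j.2)
        obtain ⟨τ, hτ, hjτ⟩ := h3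
        refine (hQC j.1).2.2.1 x {σ ∈ T | j.1 < σ} ?_ ⟨τ, hτ, hjτ⟩ s ?_
        · rintro σ ⟨hσ, hjσ⟩
          exact mem_iInter.1 (hT hσ).1 ⟨j.1, hjσ⟩
        · refine ⟨fun σ hσ => hs.1 hσ.1, fun b hb => hs.2 fun σ hσ => ?_⟩
          rcases lt_or_ge j.1 σ with h4 | h4
          · exact hb ⟨hσ, h4⟩
          · exact h4.trans (hjτ.le.trans (hb ⟨hτ, hjτ⟩))
      · obtain ⟨τ, hτ⟩ := hne
        rcases (hT hτ).2 with h | h
        · exact Or.inl h
        · obtain ⟨j, hj⟩ := mem_iUnion.1 h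
          exact Or.inr (mem_iUnion.2 ⟨⟨j.1, j.2.trans_le (hs.1 hτ)⟩, hj⟩)
    · intro x
      choose g hg using fun j => (hQC j).2.2.2.1 x
      have h3 : ∀ β : Pt κ, ∃ b, ∀ p : Iic β × Iic β, g p.1.1 p.2.1 < b := by
        intro β
        refine bdd' hκ ?_ _
        rw [mk_prod, lift_id]
        exact mul_lt_of_lt hκ.aleph0_le (mkIic hκ β) (mkIic hκ β)
      choose B hB using h3
      have h4 : ∃ j0, x ∈ (⋃ i, A i) → x ∈ A j0 := by
        by_cases hx : x ∈ ⋃ i, A i
        · obtain ⟨j, hj⟩ := mem_iUnion.1 hx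
          exact ⟨j, fun _ => hj⟩
        · obtain ⟨j⟩ := nonemptyPt hκ
          exact ⟨j, fun h => absurd h hx⟩
      obtain ⟨j0, hj0⟩ := h4
      refine ⟨fun β => max (B β) j0, fun γ hγ hcl => ⟨mem_iInter.2 fun j => ?_, ?_⟩⟩
      · refine hg j.1 γ hγ fun β hβ => ?_
        have h5 : max j.1 β < γ := max_lt j.2 hβ
        exact (hB (max j.1 β) (⟨j.1, mem_Iic.2 (le_max_left _ _)⟩, ⟨β, mem_Iic.2 (le_max_right _ _)⟩)).trans_le
          ((le_max_left _ _).trans (hcl _ h5).le)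
      · by_cases hx : x ∈ ⋃ i, A i
        · obtain ⟨β, hβ⟩ := hγ
          exact Or.inr (mem_iUnion.2 ⟨⟨j0, (le_max_right _ _).trans_lt (hcl β hβ)⟩, hj0 hx⟩)
        · exact Or.inl hx
    · intro γ
      have hξ1 : 1 ≤ ξ := hξ.le
      have hlt : ∀ j, η j + 1 ≤ ξ + 1 := fun j =>
        (Order.add_one_le_iff.2 (h2 j)).trans (Order.lt_add_one_iff.2 le_rfl).le
      refine del_inter hX hκ hpow hξ1 (del_iInter hX hκ hpow hξ1 (mkIio γ) _ fun j => ?_)
        (del_union hX hκ hpow hξ1 (del_of_sig hX hκ hSig).compl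
          (del_iUnion hX hκ hpow hξ1 (mkIio γ) _ fun j => ?_))
      · exact ((hQC j.1).2.2.2.2 γ).mono hX (hlt _)
      · have h5 := ((del_of_sig hX hκ (h j.1)).mono hX (hlt _)).compl
        rwa [compl_compl] at h5

end refl

/-- For limit `ξ` a set in `Σ⁰_ξ` is a union of sets in `Σ⁰_{c n + 1}`. -/
lemma decomp {X : Type u} [TopologicalSpace X] {ξ : Ordinal.{u}} (hξ1 : 1 < ξ)
    (c : Pt ξ.cof → Ordinal.{u}) (hc2 : ∀ i, 1 ≤ c i) (hc3 : ∀ η < ξ, ∃ i, η ≤ c i)
    {S : Set X} (hS : Sig κ ξ S) :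
    ∃ T : Pt ξ.cof → Set X, (∀ n, Sig κ (c n + 1) (T n)) ∧ S = ⋃ n, T n := by
  classical
  obtain ⟨A, η, h1, h2, h3, h4⟩ := hS.exists_union hξ1
  refine ⟨fun n => ⋃ i, (if η i ≤ c n then A i else ∅), fun n => ?_, ?_⟩
  · refine sig_union_of (Order.lt_add_one_iff.2 (hc2 n)) mkPt.le _ fun i => ?_
    split_ifs with h
    · exact ⟨η i, Order.lt_add_one_iff.2 h, h3 i⟩
    · refine ⟨1, Order.lt_add_one_iff.2 (hc2 n), ?_⟩
      rw [compl_empty]
      exact Sig.opens _ isOpen_univ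
  · rw [h4]
    ext x
    simp only [mem_iUnion]
    constructor
    · rintro ⟨i, hi⟩
      obtain ⟨n, hn⟩ := hc3 (η i) (h2 i)
      exact ⟨n, i, by rwa [if_pos hn]⟩
    · rintro ⟨n, i, hi⟩
      split_ifs at hi with h
      · exact ⟨i, hi⟩
      · exact absurd hi (notMem_empty _)

/-- `M_{ξ+1}(X, Y)` is contained in `lim_κ(lim_{cf(ξ)} M_{<ξ}(X, Y))` for all subspaces `X`, `Y` of
`κ^κ` and all limit ordinals `ξ` of cofinality below `κ`. -/
theorem result (κ : Cardinal.{u}) (hκ : κ.IsRegular) (hunc : ℵ₀ < κ)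
    (hpow : Cardinal.powerlt 2 κ = κ) (ξ : Ordinal.{u}) (hξ : Order.IsSuccLimit ξ)
    (hcof : ξ.cof < κ) (X Y : Set (GB κ)) :
    MClass κ (ξ + 1) X Y ⊆ LimSet κ (LimSet ξ.cof (MLt κ ξ X Y)) := by
  classical
  intro f hf
  have hX := good hκ hpow X
  have hξ1 : 1 < ξ := by
    have := hξ.add_one_lt hξ.bot_lt
    simpa using this
  rcases isEmpty_or_nonempty X with hX0 | ⟨⟨x0⟩⟩
  · refine ⟨fun _ => f, fun _ => ⟨fun _ => f, fun _ => ⟨1, le_rfl, hξ1, fun U _ => ?_⟩,
      fun x => (hX0.elim x)⟩, fun x => (hX0.elim x)⟩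
    rw [Set.eq_empty_of_isEmpty (f ⁻¹' U)]
    exact Sig.opens _ isOpen_empty
  let y0 : Y := f x0
  obtain ⟨hcreg, c, hc, hc1, hc2, hc3⟩ := cofOrd hξ
  have hne := nonemptyPt hκ
  have hneμ := nonemptyPt hcreg
  have hnm := noMax hκ
  obtain ⟨e, he⟩ := basicEnum hκ hpow
  let V : Pt κ → Set Y := fun t => Subtype.val ⁻¹' (nb (e t).1 (e t).2)
  have hVo : ∀ t, IsOpen (V t) := fun t => (isOpen_nb _ _).preimage continuous_subtype_val
  -- the representation of the preimages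
  have h1 : ∀ t, ∃ D : Pt κ → Set X, (∀ j, Sig κ ξ (D j)ᶜ) ∧ f ⁻¹' V t = ⋃ j, D j := by
    intro t
    obtain ⟨D, η, h1, h2, h3, h4⟩ := (hf _ (hVo t)).exists_union (Order.lt_add_one_iff.2 hξ1.le)
    exact ⟨D, fun j => sig_mono hX (Order.lt_add_one_iff.1 (h2 j)) (h3 j), h4⟩
  choose D hD1 hD2 using h1
  choose E hE1 hE2 using fun t j => decomp (κ := κ) hξ1 c hc2 hc3 (hD1 t j)
  choose P C hPC using fun t j k => refl hX hκ hpow (hE1 t j k)
  -- the relation, the functions `G γ`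
  let R : Pt κ → X → Pt κ → Prop := fun γ x t => ∃ j < γ, ∀ k, x ∉ P t j k γ
  let τ : Pt κ → X → Set (Pt κ) := fun γ x => {t | t < γ ∧ R γ x t}
  let pick : Set (Pt κ) → Y := fun s => if h : ∃ y : Y, ∀ t ∈ s, y ∈ V t then h.choose else y0
  let G : Pt κ → X → Y := fun γ x => pick (τ γ x)
  have hR : ∀ γ t, IsClopen {x | R γ x t} := by
    intro γ t
    have h2 : {x | R γ x t} = ⋃ j : Iio γ, ⋂ k : Pt ξ.cof, (P t j.1 k γ)ᶜ := by
      ext x
      simp only [R, mem_iUnion, mem_iInter, mem_compl_iff]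
      constructor
      · rintro ⟨j, hj, h⟩
        exact ⟨⟨j, hj⟩, h⟩
      · rintro ⟨j, h⟩
        exact ⟨j.1, j.2, h⟩
    rw [h2]
    refine isClopen_iUnion hX (mkIio γ) _ fun j => isClopen_iInter hX (by rw [mkPt]; exact hcof) _
      fun k => ((hPC t j.1 k).1 γ).compl
  have hτ : ∀ γ (s : Set (Pt κ)), IsOpen {x | τ γ x = s} := by
    intro γ s
    by_cases hs : ∀ t ∈ s, t < γ
    · have h2 : {x | τ γ x = s} =
          ⋂ t : Iio γ, (if t.1 ∈ s then {x | R γ x t.1} else {x | R γ x t.1}ᶜ) := by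
        ext x
        simp only [mem_iInter]
        constructor
        · intro h t
          have h : τ γ x = s := h
          split_ifs with ht
          · rw [← h] at ht
            exact ht.2
          · intro h3
            apply ht
            rw [← h]
            exact ⟨t.2, h3⟩
        · intro h
          show τ γ x = s
          ext t
          constructor
          · rintro ⟨ht, h3⟩
            by_contra h4
            have h5 := h ⟨t, ht⟩
            rw [if_neg h4] at h5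
            exact h5 h3
          · intro ht
            have h5 := h ⟨t, hs t ht⟩
            rw [if_pos ht] at h5
            exact ⟨hs t ht, h5⟩
      rw [h2]
      refine (isClopen_iInter hX (mkIio γ) _ fun t => ?_).isOpen
      split_ifs
      · exact hR _ _
      · exact (hR _ _).compl
    · have h2 : {x | τ γ x = s} = ∅ := by
        ext x
        simp only [mem_empty_iff_false, iff_false]
        intro h
        have h : τ γ x = s := h
        apply hs
        intro t ht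
        rw [← h] at ht
        exact ht.1
      rw [h2]
      exact isOpen_empty
  have hGo : ∀ γ (W : Set Y), IsOpen (G γ ⁻¹' W) := by
    intro γ W
    have h2 : G γ ⁻¹' W = ⋃ s : {s : Set (Pt κ) // pick s ∈ W}, {x | τ γ x = s.1} := by
      ext x
      simp only [mem_iUnion]
      constructor
      · intro h
        exact ⟨⟨τ γ x, h⟩, rfl⟩
      · rintro ⟨s, hs⟩
        have hs : τ γ x = s.1 := hs
        show pick (τ γ x) ∈ W
        rw [hs]
        exact s.2
    rw [h2]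
    exact isOpen_iUnion fun s => hτ _ _
  have hG : ∀ γ (W : Set Y), IsClopen (G γ ⁻¹' W) := by
    intro γ W
    refine ⟨⟨?_⟩, hGo γ W⟩
    rw [← preimage_compl]
    exact hGo γ _
  -- the closed sets
  let K : Pt ξ.cof → Pt κ → Set X := fun k γ =>
    {x | ∀ k' ≤ k, ∀ t < γ, ∀ j < γ, x ∈ C t j k' γ}
  have hKanti : ∀ k k', k ≤ k' → ∀ γ, K k' γ ⊆ K k γ := fun k k' h γ x hx l hl =>
    hx l (hl.trans h)
  have hKcl : ∀ k x, LubClosed {γ | x ∈ K k γ} := by
    intro k x T hT hne s hs k' hk' t ht j hj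
    have h3 : ∃ σ ∈ T, max t j < σ := by
      by_contra hcon
      push Not at hcon
      exact absurd (hs.2 hcon) (not_le.2 (max_lt ht hj))
    obtain ⟨σ, hσ, hσ2⟩ := h3
    refine (hPC t j k').2.2.1 x {ρ ∈ T | max t j < ρ} ?_ ⟨σ, hσ, hσ2⟩ s ?_
    · rintro ρ ⟨hρ, hρ2⟩
      exact hT hρ k' hk' t ((le_max_left _ _).trans_lt hρ2) j ((le_max_right _ _).trans_lt hρ2)
    · refine ⟨fun ρ hρ => hs.1 hρ.1, fun b hb => hs.2 fun ρ hρ => ?_⟩
      rcases lt_or_ge (max t j) ρ with h4 | h4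
      · exact hb ⟨hρ, h4⟩
      · exact h4.trans (hσ2.le.trans (hb ⟨hσ, hσ2⟩))
  have hbot : ∃ o : Pt κ, ∀ a, o ≤ a := by
    obtain ⟨o, -, ho⟩ := (wellFounded_lt (α := Pt κ)).has_min Set.univ ⟨hne.some, mem_univ _⟩
    exact ⟨o, fun a => not_lt.1 (ho a (mem_univ _))⟩
  obtain ⟨o, ho⟩ := hbot
  have hgr : ∀ k α x, ∃ m, IsGreatest {γ | γ ≤ α ∧ γ ∈ {γ | x ∈ K k γ}} m := fun k α x =>
    exists_greatest (hKcl k x) α ⟨o, ho α, fun k' _ t ht => absurd ht (not_lt.2 (ho t))⟩
  choose m hm using hgr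
  -- the limit of the greatest elements
  have hlimm : ∀ α x, ∃ M k0, (∀ k ≥ k0, m k α x = M) ∧ (∀ k, x ∈ K k M) ∧
      ∀ γ ≤ α, (∀ k, x ∈ K k γ) → γ ≤ M := by
    intro α x
    obtain ⟨M, ⟨k0, hk0⟩, hmin⟩ := (wellFounded_lt (α := Pt κ)).has_min
      (range fun k => m k α x) ⟨_, ⟨hneμ.some, rfl⟩⟩
    have hk0 : m k0 α x = M := hk0
    have h3 : ∀ k ≥ k0, m k α x = M := by
      intro k hk
      refine le_antisymm ?_ (not_lt.1 (hmin _ ⟨k, rfl⟩))
      rw [← hk0]
      exact (hm k0 α x).2 ⟨(hm k α x).1.1, hKanti _ _ hk _ (hm k α x).1.2⟩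
    refine ⟨M, k0, h3, fun k => ?_, fun γ hγ hγ2 => ?_⟩
    · have h4 := (hm (max k k0) α x).1.2
      rw [h3 _ (le_max_right _ _)] at h4
      exact hKanti _ _ (le_max_left _ _) _ h4
    · rw [← hk0]
      exact (hm k0 α x).2 ⟨hγ, hγ2 k0⟩
  choose M k0 hM1 hM2 hM3 using hlimm
  refine ⟨fun α x => G (M α x) x, fun α => ⟨fun k x => G (m k α x) x, fun k => ?_, fun x => ?_⟩,
    fun x => ?_⟩
  · -- the functions are in `M_{<ξ}`
    refine ⟨c k + 1 + 1, le_add_self, hξ.add_one_lt (hξ.add_one_lt (hc1 k)), fun U _ => ?_⟩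
    have hk1 : (1 : Ordinal.{u}) ≤ c k + 1 := le_add_self
    have hDel : Del κ (c k + 1 + 1) ((fun x => G (m k α x) x) ⁻¹' U) := by
      have h3 : (fun x => G (m k α x) x) ⁻¹' U = ⋃ γ : Iic α, ((K k γ.1 ∩
          ⋂ γ' : Iic α, (if γ.1 < γ'.1 then (K k γ'.1)ᶜ else Set.univ)) ∩ G γ.1 ⁻¹' U) := by
        ext x
        simp only [mem_iUnion, mem_inter_iff, mem_iInter, mem_preimage]
        constructor
        · intro hx
          refine ⟨⟨m k α x, (hm k α x).1.1⟩, ⟨(hm k α x).1.2, fun γ' => ?_⟩, hx⟩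
          split_ifs with h4
          · intro h5
            exact absurd ((hm k α x).2 ⟨γ'.2, h5⟩) (not_le.2 h4)
          · exact mem_univ _
        · rintro ⟨γ, ⟨h4, h5⟩, h6⟩
          have h7 : m k α x = γ.1 := by
            refine le_antisymm (not_lt.1 fun h8 => ?_) ((hm k α x).2 ⟨γ.2, h4⟩)
            have h9 := h5 ⟨m k α x, (hm k α x).1.1⟩
            rw [if_pos h8] at h9
            exact h9 (hm k α x).1.2
          rw [h7]
          exact h6
      have hKd : ∀ γ, Del κ (c k + 1 + 1) (K k γ) := by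
        intro γ
        have h4 : K k γ = ⋂ k' : Iic k, ⋂ t : Iio γ, ⋂ j : Iio γ, C t.1 j.1 k'.1 γ := by
          ext x
          simp only [K, mem_iInter]
          constructor
          · intro h k' t j
            exact h k'.1 k'.2 t.1 t.2 j.1 j.2
          · intro h k' hk' t ht j hj
            exact h ⟨k', hk'⟩ ⟨t, ht⟩ ⟨j, hj⟩
        rw [h4]
        refine del_iInter hX hκ hpow hk1 ((mk_set_le _).trans_lt (by rw [mkPt]; exact hcof)) _
          fun k' => ?_
        refine del_iInter hX hκ hpow hk1 (mkIio γ) _ fun t => ?_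
        refine del_iInter hX hκ hpow hk1 (mkIio γ) _ fun j => ?_
        refine ((hPC t.1 j.1 k'.1).2.2.2.2 γ).mono hX ?_
        have h5 : c k'.1 ≤ c k := hc.monotone k'.2
        exact Order.add_one_le_iff.2 (Order.lt_add_one_iff.2
          (Order.add_one_le_iff.2 (Order.lt_add_one_iff.2 h5)))
      rw [h3]
      refine del_iUnion hX hκ hpow hk1 (mkIic hκ α) _ fun γ => ?_
      refine del_inter hX hκ hpow hk1 (del_inter hX hκ hpow hk1 (hKd _) ?_)
        (del_of_isClopen hX le_add_self (hG _ _))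
      refine del_iInter hX hκ hpow hk1 (mkIic hκ α) _ fun γ' => ?_
      split_ifs
      · exact (hKd _).compl
      · exact del_of_isClopen hX le_add_self isClopen_univ
    exact hDel.1
  · refine tendsto_const_nhds.congr' ?_
    filter_upwards [eventually_ge_atTop (k0 α x)] with k hk
    rw [hM1 α x k hk]
  · -- convergence
    rw [tendsto_subtype_rng, tendsto_nhds]
    intro U hU hxU
    obtain ⟨a, ha⟩ := (isOpen_iff hκ U).1 hU _ hxU
    obtain ⟨ta, hta, hta2⟩ := he (f x).1 a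
    subst hta
    have hfV : x ∈ f ⁻¹' V ta := by
      show (f x).1 ∈ nb (e ta).1 (e ta).2
      rw [hta2]
      exact self_mem_nb _ _
    rw [hD2] at hfV
    obtain ⟨ja, hja⟩ := mem_iUnion.1 hfV
    choose h hh using fun t j k => (hPC t j k).2.2.2.1 x
    have h3 : ∀ β : Pt κ, ∃ b, ∀ p : (Iic β × Iic β) × (Pt ξ.cof × Iic β),
        h p.1.1.1 p.1.2.1 p.2.1 p.2.2.1 < b := by
      intro β
      refine bdd' hκ ?_ _
      simp only [mk_prod, lift_id]
      exact mul_lt_of_lt hκ.aleph0_le (mul_lt_of_lt hκ.aleph0_le (mkIic hκ β) (mkIic hκ β))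
        (mul_lt_of_lt hκ.aleph0_le (by rw [mkPt]; exact hcof) (mkIic hκ β))
    choose B hB using h3
    obtain ⟨γ, hγ1, hγ2⟩ := club hκ hunc B (max ta ja)
    have hγK : ∀ k, x ∈ K k γ := by
      intro k k' _ t ht j hj
      refine hh t j k' γ ⟨_, hγ1⟩ fun β hβ => ?_
      have h5 : max (max t j) β < γ := max_lt (max_lt ht hj) hβ
      exact (hB (max (max t j) β) ((⟨t, mem_Iic.2 ((le_max_left _ _).trans (le_max_left _ _))⟩,
        ⟨j, mem_Iic.2 ((le_max_right _ _).trans (le_max_left _ _))⟩),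
        (k', ⟨β, mem_Iic.2 (le_max_right _ _)⟩))).trans (hγ2 _ h5)
    filter_upwards [eventually_ge_atTop γ] with α hα
    have hMγ : γ ≤ M α x := hM3 α x γ hα hγK
    have hMta : ta < M α x := ((le_max_left _ _).trans_lt hγ1).trans_le hMγ
    have hMja : ja < M α x := ((le_max_right _ _).trans_lt hγ1).trans_le hMγ
    have hPE : ∀ t < M α x, ∀ j < M α x, ∀ k, (x ∈ P t j k (M α x) ↔ x ∈ E t j k) := by
      intro t ht j hj k
      exact (hPC t j k).2.1 _ x (hM2 α x k k le_rfl t ht j hj)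
    have hDP : ∀ t < M α x, ∀ j < M α x, ((∀ k, x ∉ P t j k (M α x)) ↔ x ∈ D t j) := by
      intro t ht j hj
      have h5 : x ∈ D t j ↔ ¬ x ∈ ⋃ k, E t j k := by
        rw [← hE2, mem_compl_iff, not_not]
      rw [h5, mem_iUnion, not_exists]
      exact forall_congr' fun k => not_congr (hPE t ht j hj k)
    have hex : ∃ y : Y, ∀ t ∈ τ (M α x) x, y ∈ V t := by
      refine ⟨f x, ?_⟩
      rintro t ⟨ht, j, hj, h5⟩
      have h6 := (hDP t ht j hj).1 h5
      show x ∈ f ⁻¹' V t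
      rw [hD2]
      exact mem_iUnion.2 ⟨j, h6⟩
    have hGval : ∀ t ∈ τ (M α x) x, G (M α x) x ∈ V t := by
      have h5 : G (M α x) x = hex.choose := by
        show pick (τ (M α x) x) = _
        exact dif_pos hex
      rw [h5]
      exact hex.choose_spec
    have h7 := hGval ta ⟨hMta, ja, hMja, (hDP ta hMta ja hMja).2 hja⟩
    have h8 : (G (M α x) x).1 ∈ nb (e ta).1 (e ta).2 := h7
    rw [hta2] at h8
    exact ha h8

end Pool.Agent.Results.MP_f4bae3_lc.WeakInclusion
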